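import Pool.Agent.H529.I.Forms
import Pool.Agent.H529.I.Apply

/-!
# Arbitrary families of primitive forms: dropping the forms divisible by a small prime

helper245.
-/

set_option autoImplicit false

open Filter Finset

namespace Pool.Agent.H529.I

/-- drop the forms of `S` which are divisible by `p` at the best class -/
theorem drop_form {m : ℕ} (D b : Fin m → ℤ) (hprim : ∀ i, ∀ p : ℕ, p.Prime → ¬ ((p : ℤ) ∣ D i ∧ (p : ℤ) ∣ b i))
    (S : Finset (Fin m)) {p : ℕ} (hp : p.Prime) :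
    ∃ S' ⊆ S, S.card - S.card / p ≤ S'.card ∧ ∃ n : ℤ, ∀ i ∈ S', ¬ (p : ℤ) ∣ D i * n + b i := by
  classical
  have hpp := Nat.prime_iff_prime_int.1 hp
  have hsum : ∑ c ∈ range p, (S.filter (fun i => (p : ℤ) ∣ D i * (c : ℤ) + b i)).card ≤ S.card := by
    have h1 : ∑ c ∈ range p, (S.filter (fun i => (p : ℤ) ∣ D i * (c : ℤ) + b i)).card =
        ∑ i ∈ S, ((range p).filter (fun c : ℕ => (p : ℤ) ∣ D i * (c : ℤ) + b i)).card := by
      simp only [card_filter]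
      exact sum_comm
    rw [h1]
    refine (sum_le_sum (g := fun _ => 1) fun i _ => ?_).trans (by simp)
    rw [card_le_one]
    intro x hx y hy
    rw [mem_filter, mem_range] at hx hy
    have h2 := dvd_sub hy.2 hx.2
    have h3 : D i * (y : ℤ) + b i - (D i * (x : ℤ) + b i) = D i * ((y : ℤ) - x) := by ring
    rw [h3] at h2
    rcases hpp.dvd_or_dvd h2 with h4 | h4
    · exfalso
      exact hprim i p hp ⟨h4, (dvd_add_right (Dvd.dvd.mul_right h4 _)).1 hx.2⟩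
    · have h5 : (x : ℤ) ≡ y [ZMOD p] := Int.modEq_iff_dvd.2 h4
      exact Nat.ModEq.eq_of_lt_of_lt ((Int.natCast_modEq_iff).1 h5) hx.1 hy.1
  obtain ⟨c, hc, hcard⟩ : ∃ c ∈ range p,
      (S.filter (fun i => (p : ℤ) ∣ D i * (c : ℤ) + b i)).card ≤ S.card / p := by
    by_contra hcon
    push Not at hcon
    have h1 : ∑ _c ∈ range p, (S.card / p + 1) ≤
        ∑ c ∈ range p, (S.filter (fun i => (p : ℤ) ∣ D i * (c : ℤ) + b i)).card :=
      sum_le_sum fun n hn => hcon n hn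
    rw [sum_const, card_range, smul_eq_mul] at h1
    have h2 := h1.trans hsum
    have h3 : S.card < p * (S.card / p + 1) := Nat.lt_mul_div_succ S.card hp.pos
    omega
  refine ⟨S.filter (fun i => ¬ (p : ℤ) ∣ D i * (c : ℤ) + b i), filter_subset _ _, ?_, c,
    fun a ha => (mem_filter.1 ha).2⟩
  have := card_filter_add_card_filter_not (s := S) (fun i => (p : ℤ) ∣ D i * (c : ℤ) + b i)
  omega

theorem drop_forms {m : ℕ} (D b : Fin m → ℤ)
    (hprim : ∀ i, ∀ p : ℕ, p.Prime → ¬ ((p : ℤ) ∣ D i ∧ (p : ℤ) ∣ b i))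
    (L : List ℕ) (hL : ∀ p ∈ L, p.Prime) (S : Finset (Fin m)) :
    ∃ S' ⊆ S, left L S.card ≤ S'.card ∧ ∀ p ∈ L, ∃ n : ℤ, ∀ i ∈ S', ¬ (p : ℤ) ∣ D i * n + b i := by
  induction L generalizing S with
  | nil => exact ⟨S, subset_rfl, le_refl _, by simp⟩
  | cons p L ih =>
    obtain ⟨S1, h1, h2, c, hc⟩ := drop_form D b hprim S (hL p (by simp))
    obtain ⟨S2, h3, h4, h5⟩ := ih (fun q hq => hL q (by simp [hq])) S1
    refine ⟨S2, h3.trans h1, (left_mono L h2).trans h4, ?_⟩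
    intro q hq
    rcases List.mem_cons.1 hq with h6 | h6
    · subst h6
      exact ⟨c, fun a ha => hc a (h3 ha)⟩
    · exact h5 q h6

/-- **Arbitrary families**: `L` is the list of the primes up to `43` at which the family may have a fixed
divisor. -/
theorem any_forms {C : ℕ} (hEF : EF C) (hLS : LS) {m : ℕ} (D b : Fin m → ℤ) (hD : ∀ i, 1 ≤ D i)
    (hprim : ∀ i, ∀ p : ℕ, p.Prime → ¬ ((p : ℤ) ∣ D i ∧ (p : ℤ) ∣ b i))
    (hne : ∀ i j, i ≠ j → D i * b j ≠ D j * b i)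
    (S : Finset (Fin m)) (L : List ℕ) (hL : ∀ p ∈ L, p.Prime)
    (hLq : ∀ p : ℕ, p.Prime → p ≤ 43 → p ∈ L ∨ ∃ n : ℤ, ∀ i ∈ S, ¬ (p : ℤ) ∣ D i * n + b i)
    (hS : 44 ≤ left L S.card) :
    ∃ i ∈ S, ∃ j ∈ S, i < j ∧ ∃ᶠ x : ℝ in atTop,
      x / Real.log x ^ (C + 1) ≤ ((consec D b i j x).ncard : ℝ) := by
  classical
  obtain ⟨S1, h1, h2, h3⟩ := drop_forms D b hprim L hL S
  obtain ⟨A, hA1, hA2⟩ := exists_subset_card_eq (hS.trans h2)
  obtain ⟨i, hi, j, hj, hij, h⟩ := forms hEF hLS D b hD hne A hA2.ge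
    (by
      intro p hp
      rcases le_or_gt p 43 with h43 | h43
      · rcases hLq p hp h43 with h4 | ⟨n, hn⟩
        · obtain ⟨n, hn⟩ := h3 p h4
          exact ⟨n, fun i hi => hn i (hA1 hi)⟩
        · exact ⟨n, fun i hi => hn i (h1 (hA1 hi))⟩
      · have h5 : p ≠ 44 := by rintro rfl; exact absurd hp (by norm_num)
        have h6 : p ≠ 45 := by rintro rfl; exact absurd hp (by norm_num)
        exact avoid_large D b A hp (by omega) (fun i _ => hprim i p hp))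
  exact ⟨i, h1 (hA1 hi), j, h1 (hA1 hj), hij, h⟩

theorem prim_of_gcd {D b : ℤ} (h : Int.gcd b D = 1) {p : ℕ} (hp : p.Prime) :
    ¬ ((p : ℤ) ∣ D ∧ (p : ℤ) ∣ b) := by
  rintro ⟨h1, h2⟩
  have h3 : (p : ℤ) ∣ (Int.gcd b D : ℤ) := Int.dvd_coe_gcd h2 h1
  rw [h] at h3
  have h4 : p ∣ 1 := by exact_mod_cast h3
  exact hp.one_lt.ne' (Nat.dvd_one.1 h4)

theorem coprime_of_prim {D b : ℤ} (h : ∀ p : ℕ, p.Prime → ¬ ((p : ℤ) ∣ D ∧ (p : ℤ) ∣ b)) : IsCoprime D b := by
  refine Int.isCoprime_iff_gcd_eq_one.2 ?_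
  by_contra hne
  obtain ⟨r, hr, hrd⟩ := Nat.exists_prime_and_dvd hne
  have h3 : (r : ℤ) ∣ (Int.gcd D b : ℤ) := Int.natCast_dvd_natCast.2 hrd
  exact h r hr ⟨h3.trans (Int.gcd_dvd_left _ _), h3.trans (Int.gcd_dvd_right _ _)⟩

/-- the value at `1` is odd -/
theorem two_ok {D b : ℤ} (h : Int.gcd b D = 1) (h2 : 2 ∣ b * D) : ¬ (2 : ℤ) ∣ D * 1 + b := by
  intro h3
  have h4 := prim_of_gcd h Nat.prime_two
  rw [mul_one] at h3
  rcases Int.prime_two.dvd_or_dvd h2 with h5 | h5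
  · exact h4 ⟨by exact_mod_cast (dvd_add_left h5).1 h3, by exact_mod_cast h5⟩
  · exact h4 ⟨by exact_mod_cast h5, by exact_mod_cast (dvd_add_right h5).1 h3⟩

theorem odd_primes : ∀ p ∈ [3, 5, 7, 11, 13, 17, 19, 23, 29, 31, 37, 41, 43], p.Prime := by
  intro p hp
  fin_cases hp <;> norm_num

theorem odd_primes_all {p : ℕ} (hp : p.Prime) (h43 : p ≤ 43) :
    p = 2 ∨ p ∈ [3, 5, 7, 11, 13, 17, 19, 23, 29, 31, 37, 41, 43] := by
  have := hp.two_le
  interval_cases p <;> first | exact absurd hp (by decide) | exact Or.inl rfl | exact Or.inr (by decide)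

/-- **Chains of 139 forms** -/
theorem chain {C : ℕ} (hEF : EF C) (hLS : LS) {m : ℕ} (D b : Fin m → ℤ) (hD : ∀ i, 1 ≤ D i)
    (hcop : ∀ i, Int.gcd (b i) (D i) = 1) (h2 : ∀ i, 2 ∣ b i * D i)
    (hinj : Function.Injective (fun i => (b i, D i))) (hm : 139 ≤ m) :
    ∃ i j, i < j ∧ ∃ᶠ x : ℝ in atTop,
      x / Real.log x ^ (C + 1) ≤ ((consec D b i j x).ncard : ℝ) := by
  obtain ⟨i, -, j, -, hij, h⟩ := any_forms hEF hLS D b hD (fun i p hp => prim_of_gcd (hcop i) hp)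
    (by
      intro i j hij
      apply nonprop (hD i) (hD j) (coprime_of_prim fun p hp => prim_of_gcd (hcop i) hp)
        (coprime_of_prim fun p hp => prim_of_gcd (hcop j) hp)
      intro heq
      rw [Prod.mk.injEq] at heq
      exact hij (hinj (by simp only [heq.1, heq.2])))
    univ _ odd_primes
    (by
      intro p hp h43
      rcases odd_primes_all hp h43 with rfl | h
      · exact Or.inr ⟨1, fun i _ => two_ok (hcop i) (h2 i)⟩
      · exact Or.inl h)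
    (by
      rw [Finset.card_univ, Fintype.card_fin]
      have h1 : left [3, 5, 7, 11, 13, 17, 19, 23, 29, 31, 37, 41, 43] 139 = 44 := by decide
      rw [← h1]
      exact left_mono _ hm)
  exact ⟨i, j, hij, h⟩

end Pool.Agent.H529.I
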