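import Pool.Graph.R_seed8.Y876.FF.Tr
import Pool.Agent.H529.G.Final
import Pool.Agent.H529.R.Lh44
import Pool.Agent.H529.I.Core

/-!
# The theorem on 44 linear forms in the form used here (adapted from `Helper245/G45/Inst.lean`)
-/

set_option autoImplicit false

open Filter Finset

namespace Pool.Agent.H529.I

theorem ef : EF 48 := by
  intro ι _ a b ha hne S hS hloc
  obtain ⟨T, h1, h2, h3⟩ :=
    (Pool.Agent.Y876.FF.exact_forms (Pool.Agent.H529.R.lh44 Pool.Agent.H529.G.dhl44R) a b ha hne S hS hloc).2
  exact ⟨T, h1, h2, h3⟩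

theorem ls : LS := fun ν w hν hw C => Pool.Agent.Y876.HS.log_shift ν w hν hw C

/-- the exponent of the logarithm -/
def BB : ℕ := 49

end Pool.Agent.H529.I
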