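import Pool.Agent.H529.I.Apply

/-!
# Explicit sets of 44 natural numbers
-/

set_option autoImplicit false
set_option maxRecDepth 20000

open Finset

namespace Pool.Agent.H529.I

def E105 : Finset ℕ := {0, 5, 6, 11, 12, 14, 17, 21, 24, 26, 27, 29, 32, 35, 36, 39, 41, 45, 47, 50, 54, 56, 57, 60, 62, 66, 69, 71, 74, 77, 80, 81, 84, 87, 89, 90, 92, 95, 96, 99, 101, 102, 104, 105}

theorem E105_card : E105.card = 44 := by decide

theorem E105_le : ∀ e ∈ E105, e ≤ 105 := by decide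

theorem E105_cls (p : ℕ) (hp : p.Prime) (h43 : p ≤ 43) :
    p ∣ 2 ∨ ∃ c : ℕ, ∀ e ∈ E105, ¬ e % p = c % p := by
  have key : ∀ c : ℕ, (∀ e ∈ E105, ¬ e % p = c % p) → ∃ c : ℕ, ∀ e ∈ E105, ¬ e % p = c % p :=
    fun c h => ⟨c, h⟩
  have h2 := hp.two_le
  interval_cases p <;> first
    | exact absurd hp (by decide)
    | exact Or.inl (by decide)
    | exact Or.inr (key 223 (by decide))
    | exact Or.inr (key 20 (by decide))
    | exact Or.inr (key 42 (by decide))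
    | exact Or.inr (key 72 (by decide))

def E72 : Finset ℕ := {0, 1, 2, 3, 5, 7, 8, 11, 12, 15, 16, 17, 18, 21, 22, 25, 26, 28, 30, 32, 33, 35, 37, 38, 40, 43, 45, 46, 47, 50, 51, 52, 56, 57, 58, 60, 63, 65, 66, 67, 68, 70, 71, 72}

theorem E72_card : E72.card = 44 := by decide

theorem E72_le : ∀ e ∈ E72, e ≤ 72 := by decide

theorem E72_cls (p : ℕ) (hp : p.Prime) (h43 : p ≤ 43) :
    p ∣ 6 ∨ ∃ c : ℕ, ∀ e ∈ E72, ¬ e % p = c % p := by
  have key : ∀ c : ℕ, (∀ e ∈ E72, ¬ e % p = c % p) → ∃ c : ℕ, ∀ e ∈ E72, ¬ e % p = c % p :=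
    fun c h => ⟨c, h⟩
  have h2 := hp.two_le
  interval_cases p <;> first
    | exact absurd hp (by decide)
    | exact Or.inl (by decide)
    | exact Or.inr (key 36 (by decide))
    | exact Or.inr (key 251 (by decide))
    | exact Or.inr (key 44 (by decide))

def E59 : Finset ℕ := {0, 1, 2, 3, 4, 5, 7, 9, 11, 12, 14, 15, 16, 17, 18, 22, 23, 24, 25, 26, 28, 31, 32, 33, 35, 36, 37, 38, 39, 40, 42, 43, 44, 45, 46, 49, 50, 51, 53, 54, 56, 57, 58, 59}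

theorem E59_card : E59.card = 44 := by decide

theorem E59_le : ∀ e ∈ E59, e ≤ 59 := by decide

theorem E59_cls (p : ℕ) (hp : p.Prime) (h43 : p ≤ 43) :
    p ∣ 30 ∨ ∃ c : ℕ, ∀ e ∈ E59, ¬ e % p = c % p := by
  have key : ∀ c : ℕ, (∀ e ∈ E59, ¬ e % p = c % p) → ∃ c : ℕ, ∀ e ∈ E59, ¬ e % p = c % p :=
    fun c h => ⟨c, h⟩
  have h2 := hp.two_le
  interval_cases p <;> first
    | exact absurd hp (by decide)
    | exact Or.inl (by decide)
    | exact Or.inr (key 29 (by decide))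
    | exact Or.inr (key 251 (by decide))
    | exact Or.inr (key 8 (by decide))

def E53 : Finset ℕ := {0, 1, 2, 5, 6, 7, 8, 9, 10, 11, 12, 15, 16, 18, 19, 20, 21, 22, 23, 24, 26, 27, 28, 29, 31, 32, 33, 34, 35, 37, 38, 39, 40, 41, 42, 44, 45, 46, 48, 49, 50, 51, 52, 53}

theorem E53_card : E53.card = 44 := by decide

theorem E53_le : ∀ e ∈ E53, e ≤ 53 := by decide

theorem E53_cls (p : ℕ) (hp : p.Prime) (h43 : p ≤ 43) :
    p ∣ 210 ∨ ∃ c : ℕ, ∀ e ∈ E53, ¬ e % p = c % p := by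
  have key : ∀ c : ℕ, (∀ e ∈ E53, ¬ e % p = c % p) → ∃ c : ℕ, ∀ e ∈ E53, ¬ e % p = c % p :=
    fun c h => ⟨c, h⟩
  have h2 := hp.two_le
  interval_cases p <;> first
    | exact absurd hp (by decide)
    | exact Or.inl (by decide)
    | exact Or.inr (key 25 (by decide))
    | exact Or.inr (key 13 (by decide))
    | exact Or.inr (key 17 (by decide))

def E50 : Finset ℕ := {0, 1, 2, 3, 4, 5, 7, 8, 9, 11, 12, 13, 14, 15, 16, 18, 19, 20, 21, 22, 24, 25, 26, 27, 28, 29, 30, 31, 32, 33, 34, 35, 37, 38, 39, 41, 42, 43, 44, 45, 46, 47, 48, 50}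

theorem E50_card : E50.card = 44 := by decide

theorem E50_le : ∀ e ∈ E50, e ≤ 50 := by decide

theorem E50_cls (p : ℕ) (hp : p.Prime) (h43 : p ≤ 43) :
    p ∣ 2310 ∨ ∃ c : ℕ, ∀ e ∈ E50, ¬ e % p = c % p := by
  have key : ∀ c : ℕ, (∀ e ∈ E50, ¬ e % p = c % p) → ∃ c : ℕ, ∀ e ∈ E50, ¬ e % p = c % p :=
    fun c h => ⟨c, h⟩
  have h2 := hp.two_le
  interval_cases p <;> first
    | exact absurd hp (by decide)
    | exact Or.inl (by decide)
    | exact Or.inr (key 23 (by decide))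
    | exact Or.inr (key 17 (by decide))

def E48 : Finset ℕ := {0, 1, 2, 3, 4, 5, 6, 7, 8, 9, 11, 12, 13, 15, 17, 18, 19, 20, 21, 22, 23, 24, 25, 26, 28, 29, 30, 31, 32, 34, 35, 36, 37, 38, 39, 40, 41, 42, 43, 44, 45, 46, 47, 48}

theorem E48_card : E48.card = 44 := by decide

theorem E48_le : ∀ e ∈ E48, e ≤ 48 := by decide

theorem E48_cls (p : ℕ) (hp : p.Prime) (h43 : p ≤ 43) :
    p ∣ 30030 ∨ ∃ c : ℕ, ∀ e ∈ E48, ¬ e % p = c % p := by
  have key : ∀ c : ℕ, (∀ e ∈ E48, ¬ e % p = c % p) → ∃ c : ℕ, ∀ e ∈ E48, ¬ e % p = c % p :=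
    fun c h => ⟨c, h⟩
  have h2 := hp.two_le
  interval_cases p <;> first
    | exact absurd hp (by decide)
    | exact Or.inl (by decide)
    | exact Or.inr (key 33 (by decide))
    | exact Or.inr (key 27 (by decide))

def E47 : Finset ℕ := {0, 1, 2, 3, 4, 5, 6, 7, 8, 9, 10, 11, 12, 13, 15, 16, 17, 18, 19, 20, 21, 22, 23, 25, 26, 27, 28, 29, 30, 31, 32, 34, 35, 36, 38, 39, 40, 41, 42, 43, 44, 45, 46, 47}

theorem E47_card : E47.card = 44 := by decide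

theorem E47_le : ∀ e ∈ E47, e ≤ 47 := by decide

theorem E47_cls (p : ℕ) (hp : p.Prime) (h43 : p ≤ 43) :
    p ∣ 510510 ∨ ∃ c : ℕ, ∀ e ∈ E47, ¬ e % p = c % p := by
  have key : ∀ c : ℕ, (∀ e ∈ E47, ¬ e % p = c % p) → ∃ c : ℕ, ∀ e ∈ E47, ¬ e % p = c % p :=
    fun c h => ⟨c, h⟩
  have h2 := hp.two_le
  interval_cases p <;> first
    | exact absurd hp (by decide)
    | exact Or.inl (by decide)
    | exact Or.inr (key 14 (by decide))
    | exact Or.inr (key 24 (by decide))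

def E45 : Finset ℕ := {0, 1, 2, 4, 5, 6, 7, 8, 9, 10, 11, 12, 13, 14, 15, 16, 17, 18, 19, 20, 21, 22, 23, 24, 25, 27, 28, 29, 30, 31, 32, 33, 34, 35, 36, 37, 38, 39, 40, 41, 42, 43, 44, 45}

theorem E45_card : E45.card = 44 := by decide

theorem E45_le : ∀ e ∈ E45, e ≤ 45 := by decide

theorem E45_cls (p : ℕ) (hp : p.Prime) (h43 : p ≤ 43) :
    p ∣ 9699690 ∨ ∃ c : ℕ, ∀ e ∈ E45, ¬ e % p = c % p := by
  have key : ∀ c : ℕ, (∀ e ∈ E45, ¬ e % p = c % p) → ∃ c : ℕ, ∀ e ∈ E45, ¬ e % p = c % p :=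
    fun c h => ⟨c, h⟩
  have h2 := hp.two_le
  interval_cases p <;> first
    | exact absurd hp (by decide)
    | exact Or.inl (by decide)
    | exact Or.inr (key 26 (by decide))

def E44x : Finset ℕ := {0, 1, 2, 3, 4, 5, 6, 7, 8, 9, 10, 11, 12, 13, 14, 15, 16, 17, 18, 19, 20, 21, 22, 23, 24, 25, 26, 28, 29, 30, 31, 32, 33, 34, 35, 36, 37, 38, 39, 40, 41, 42, 43, 44}

theorem E44x_card : E44x.card = 44 := by decide

theorem E44x_le : ∀ e ∈ E44x, e ≤ 44 := by decide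

theorem E44x_cls (p : ℕ) (hp : p.Prime) (h43 : p ≤ 43) :
    p ∣ 223092870 ∨ ∃ c : ℕ, ∀ e ∈ E44x, ¬ e % p = c % p := by
  have key : ∀ c : ℕ, (∀ e ∈ E44x, ¬ e % p = c % p) → ∃ c : ℕ, ∀ e ∈ E44x, ¬ e % p = c % p :=
    fun c h => ⟨c, h⟩
  have h2 := hp.two_le
  interval_cases p <;> first
    | exact absurd hp (by decide)
    | exact Or.inl (by decide)
    | exact Or.inr (key 27 (by decide))

end Pool.Agent.H529.I
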